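import Mathlib
import Pool.Agent.Q91.Gin9

/-!
Least singular value of complex shifts of real Ginibre matrices: full answer (positive) to Q2, hence to Q1.
-/

set_option autoImplicit false

open MeasureTheory ProbabilityTheory
open scoped ENNReal NNReal

namespace Pool.Agent.Results.MP_ceabe6_pr.ShiftedGinibre

/-- The law of an `n × n` real Ginibre matrix: independent centred real Gaussian entries of variance `1/n`. -/
noncomputable def ginibre (n : ℕ) : Measure (Fin n → Fin n → ℝ) :=
  Measure.pi fun _ => Measure.pi fun _ => gaussianReal 0 (1 / (n : ℝ≥0))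

/-- The smallest singular value `σ_n(M)` of an `n × n` complex matrix (`n ≥ 1`); Mathlib numbers the singular
values `0, …, n-1` in decreasing order. -/
noncomputable def smin {n : ℕ} (M : Matrix (Fin n) (Fin n) ℂ) : ℝ :=
  (Matrix.toEuclideanLin M).singularValues (n - 1)

/-- The operator norm of a real matrix on Euclidean space. -/
noncomputable def opNorm {n : ℕ} (A : Matrix (Fin n) (Fin n) ℝ) : ℝ :=
  ‖Matrix.toEuclideanCLM (n := Fin n) (𝕜 := ℝ) A‖

/-- entrywise division by a nonzero constant -/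
noncomputable def divEquiv (n : ℕ) (c : ℝ) (hc : c ≠ 0) : (Fin n → Fin n → ℝ) ≃ᵐ (Fin n → Fin n → ℝ) where
  toFun X := fun i j => X i j / c
  invFun X := fun i j => X i j * c
  left_inv X := by funext i j; simp [hc]
  right_inv X := by funext i j; simp [hc]
  measurable_toFun := by
    apply measurable_pi_lambda
    intro i
    apply measurable_pi_lambda
    intro j
    have h : Measurable fun X : Fin n → Fin n → ℝ => X i j := (measurable_pi_apply j).comp (measurable_pi_apply i)
    exact h.div_const c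
  measurable_invFun := by
    apply measurable_pi_lambda
    intro i
    apply measurable_pi_lambda
    intro j
    have h : Measurable fun X : Fin n → Fin n → ℝ => X i j := (measurable_pi_apply j).comp (measurable_pi_apply i)
    exact h.mul_const c

theorem gauss_div (n : ℕ) :
    (gaussianReal 0 1).map (fun x => x / √(n : ℝ)) = gaussianReal 0 (1 / (n : ℝ≥0)) := by
  rw [gaussianReal_map_div_const]
  congr 1
  · simp
  · apply NNReal.eq
    push_cast
    rw [Real.sq_sqrt (Nat.cast_nonneg n)]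

theorem pi_div {α : Type} [MeasurableSpace α] (n : ℕ) (μ : Measure α) [IsProbabilityMeasure μ] (f : α → α)
    (hf : Measurable f) :
    (Measure.pi fun _ : Fin n => μ).map (fun X i => f (X i)) = Measure.pi fun _ : Fin n => μ.map f := by
  have : ∀ _ : Fin n, SigmaFinite (μ.map f) := fun _ => by
    have := Measure.isProbabilityMeasure_map hf.aemeasurable (μ := μ)
    infer_instance
  exact Measure.pi_map_pi (μ := fun _ : Fin n => μ) (f := fun _ => f) (fun _ => hf.aemeasurable)

theorem ginibre_map (n : ℕ) (hc : √(n : ℝ) ≠ 0) :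
    ginibre n = (Pool.Agent.Q91.Gin.sg n).map (divEquiv n (√(n : ℝ)) hc) := by
  have h1 := pi_div n (gaussianReal 0 1) (fun x => x / √(n : ℝ)) (by fun_prop)
  have hm : Measurable fun (g : Fin n → ℝ) j => g j / √(n : ℝ) := by
    apply measurable_pi_lambda
    intro j
    exact (measurable_pi_apply j).div_const _
  have h2 := pi_div n (Measure.pi fun _ : Fin n => gaussianReal 0 1) (fun (g : Fin n → ℝ) j => g j / √(n : ℝ)) hm
  rw [h1, gauss_div] at h2
  unfold ginibre
  rw [← h2]
  rfl

/-- **Q2 of the problem** (and, with `A = 0`, Q1). -/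
theorem result : ∀ C : ℝ, 0 < C → ∃ C' : ℝ → ℝ, (∀ t, C' t = 4032 * (1 + C + t)) ∧
    ∀ n : ℕ, 1 ≤ n → ∀ (A : Matrix (Fin n) (Fin n) ℝ) (ε : ℝ), 0 < ε → ∀ z : ℂ, z.im ≠ 0 → ‖z‖ ≤ C →
      ginibre n {G | smin (z • (1 : Matrix (Fin n) (Fin n) ℂ) - (A + Matrix.of G).map Complex.ofReal) ≤ ε}
        ≤ ENNReal.ofReal (C' (opNorm A) * (n : ℝ) ^ 2 * ε ^ 2 / |z.im|) := by
  intro C _
  refine ⟨fun t => 4032 * (1 + C + t), fun t => rfl, ?_⟩
  intro n hn A ε hε z hz hzC
  obtain ⟨m, rfl⟩ : ∃ m, n = m + 1 := ⟨n - 1, by omega⟩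
  have hc : √((m + 1 : ℕ) : ℝ) ≠ 0 := by positivity
  rw [ginibre_map (m + 1) hc, MeasurableEquiv.map_apply]
  refine (Pool.Agent.Q91.Gin.main_sg A z hz ε hε).trans (ENNReal.ofReal_le_ofReal ?_)
  have h1 : 0 < |z.im| := abs_pos.2 hz
  unfold opNorm
  show _ ≤ 4032 * (1 + C + ‖Matrix.toEuclideanCLM (n := Fin (m + 1)) (𝕜 := ℝ) A‖) * ((m + 1 : ℕ) : ℝ) ^ 2 * ε ^ 2 / |z.im|
  gcongr

end Pool.Agent.Results.MP_ceabe6_pr.ShiftedGinibre
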